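import Mathlib

set_option linter.unusedSimpArgs false

namespace Pool.Agent.Helper252.Subn

theorem arith (V : AddSubgroup (ℤ × ℤ)) (Y : AddSubgroup ℤ)
    (hY : ∀ a ∈ V, ∀ b ∈ V, ∀ c ∈ V, (a.1 * b.2 - a.2 * b.1) * (c.2 ^ 3 - c.1 ^ 3) ∈ Y)
    (g : ℤ × ℤ) {h a b c d : ℤ × ℤ} (hh : h ∈ V) (ha : a ∈ V) (hb : b ∈ V) (hc : c ∈ V)
    (hd : d ∈ V) :
    6 * (g.1 * h.2 - g.2 * h.1) * (a.1 * b.2 - a.2 * b.1) * (c.1 * d.2 - c.2 * d.1) ∈ Y := by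
  classical
  set W : ℤ := a.1 * b.2 - a.2 * b.1 with hW
  -- polarised form of the hypothesis
  have pol : ∀ x ∈ V, ∀ y ∈ V, W * (6 * (x.2 * y.2 ^ 2 - x.1 * y.1 ^ 2)) ∈ Y := by
    intro x hx y hy
    have h1 := hY a ha b hb (x + y) (V.add_mem hx hy)
    have h2 := hY a ha b hb (x - y) (V.sub_mem hx hy)
    have h3 := hY a ha b hb x hx
    have h4 := Y.sub_mem (Y.add_mem h1 h2) (Y.add_mem h3 h3)
    have : W * (6 * (x.2 * y.2 ^ 2 - x.1 * y.1 ^ 2))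
        = (a.1 * b.2 - a.2 * b.1) * ((x + y).2 ^ 3 - (x + y).1 ^ 3)
          + (a.1 * b.2 - a.2 * b.1) * ((x - y).2 ^ 3 - (x - y).1 ^ 3)
          - ((a.1 * b.2 - a.2 * b.1) * (x.2 ^ 3 - x.1 ^ 3)
            + (a.1 * b.2 - a.2 * b.1) * (x.2 ^ 3 - x.1 ^ 3)) := by
      simp only [Prod.fst_add, Prod.snd_add, Prod.fst_sub, Prod.snd_sub]
      ring
    rw [this]
    exact h4
  -- the content of V
  let S : Set ℤ := {x | ∃ v ∈ V, x = v.1 ∨ x = v.2}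
  obtain ⟨D, hD⟩ := (IsPrincipalIdealRing.principal (Ideal.span S)).principal
  have hDS : ∀ x ∈ S, D ∣ x := by
    intro x hx
    have : x ∈ Ideal.span S := Ideal.subset_span hx
    rw [hD] at this
    exact Ideal.mem_span_singleton.mp this
  have hDmem : D ∈ Ideal.span S := by
    rw [hD]; exact Ideal.mem_span_singleton_self D
  have key : ∀ v ∈ V, D ∣ v.1 ∧ D ∣ v.2 := fun v hv =>
    ⟨hDS _ ⟨v, hv, Or.inl rfl⟩, hDS _ ⟨v, hv, Or.inr rfl⟩⟩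
  obtain ⟨⟨c1, hc1⟩, ⟨c2, hc2⟩⟩ := key c hc
  obtain ⟨⟨d1, hd1⟩, ⟨d2, hd2⟩⟩ := key d hd
  obtain ⟨⟨l1, hl1⟩, ⟨l2, hl2⟩⟩ := key h hh
  set m : ℤ := D * (c1 * d2 - c2 * d1) with hm
  have hmV : ∀ x y : ℤ, (m * x, m * y) ∈ V := by
    intro x y
    have h1 := V.sub_mem (V.zsmul_mem hc (x * d2 - y * d1)) (V.zsmul_mem hd (x * c2 - y * c1))
    convert h1 using 1
    ext
    · simp only [Prod.fst_sub, Prod.smul_fst, smul_eq_mul, hc1, hd1, hm]; ring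
    · simp only [Prod.snd_sub, Prod.smul_snd, smul_eq_mul, hc2, hd2, hm]; ring
  -- squares
  have hsq : ∀ x ∈ S, W * (6 * m * x ^ 2) ∈ Y := by
    rintro x ⟨v, hv, rfl | rfl⟩
    · have h1 := Y.neg_mem (pol _ (hmV 1 0) v hv)
      convert h1 using 1
      ring
    · have h1 := pol _ (hmV 0 1) v hv
      convert h1 using 1
      ring
  let K : Ideal ℤ :=
    { carrier := {n | W * (6 * m * n) ∈ Y}
      add_mem' := by
        intro x y hx hy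
        have := Y.add_mem hx hy
        simp only [Set.mem_ofPred_eq] at *
        convert this using 1
        ring
      zero_mem' := by simp
      smul_mem' := by
        intro r x hx
        have := Y.zsmul_mem hx r
        simp only [Set.mem_ofPred_eq, smul_eq_mul] at *
        convert this using 1
        ring }
  obtain ⟨k, hk⟩ := (IsPrincipalIdealRing.principal K).principal
  have hkdvd : ∀ n, n ∈ K ↔ k ∣ n := by
    intro n; rw [hk]; exact Ideal.mem_span_singleton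
  have hk2 : ∀ x ∈ S, k ∣ x ^ 2 := fun x hx => (hkdvd _).1 (hsq x hx)
  have hkxy : ∀ x ∈ S, ∀ y ∈ S, k ∣ x * y := by
    intro x hx y hy
    have h1 : k ^ 2 ∣ (x * y) ^ 2 := by
      have := mul_dvd_mul (hk2 x hx) (hk2 y hy)
      rw [mul_pow, pow_two k]
      exact this
    exact (Int.pow_dvd_pow_iff (by norm_num)).1 h1
  have hkxD : ∀ x ∈ S, k ∣ x * D := by
    intro x hx
    have : ∀ y ∈ Ideal.span S, k ∣ x * y := by
      intro y hy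
      induction hy using Submodule.span_induction with
      | mem y hy => exact hkxy x hx y hy
      | zero => simp
      | add y z _ _ h1 h2 => rw [mul_add]; exact dvd_add h1 h2
      | smul r y _ h1 =>
        rw [smul_eq_mul, show x * (r * y) = r * (x * y) by ring]
        exact Dvd.dvd.mul_left h1 r
    exact this D hDmem
  have hkDD : k ∣ D * D := by
    have : ∀ y ∈ Ideal.span S, k ∣ y * D := by
      intro y hy
      induction hy using Submodule.span_induction with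
      | mem y hy => exact hkxD y hy
      | zero => simp
      | add y z _ _ h1 h2 => rw [add_mul]; exact dvd_add h1 h2
      | smul r y _ h1 =>
        rw [smul_eq_mul, show (r * y) * D = r * (y * D) by ring]
        exact Dvd.dvd.mul_left h1 r
    exact this D hDmem
  have hDD : D * D ∈ K := (hkdvd _).2 hkDD
  have hfin : (g.1 * l2 - g.2 * l1) * (D * D) ∈ K := K.mul_mem_left _ hDD
  have : W * (6 * m * ((g.1 * l2 - g.2 * l1) * (D * D))) ∈ Y := hfin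
  convert this using 1
  rw [hl1, hl2, hc1, hc2, hd1, hd2, hm]
  ring


/-- Elements of the group: `(s,t)` is the image in `ℤ²`, the other coordinates are rational. -/
@[ext] structure T where
  s : ℤ
  t : ℤ
  e : ℚ
  v1 : ℚ
  v2 : ℚ
  q1 : ℚ
  q2 : ℚ
  q3 : ℚ
  w1 : ℚ
  w2 : ℚ
  p1 : ℚ
  p2 : ℚ
  p3 : ℚ
  r1 : ℚ
  r2 : ℚ
  r3 : ℚ
  z : ℚ

namespace T

/-- Multiplication. -/
def mul' (a b : T) : T where
  s := a.s + b.s
  t := a.t + b.t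
  e := a.e + b.e + (a.s * b.t - a.t * b.s)
  v1 := a.v1 + b.v1 + b.e * a.s + (1/2) * (a.s * b.t - a.t * b.s) * a.s - (1/2) * a.e * b.s
  v2 := a.v2 + b.v2 + b.e * a.t + (1/2) * (a.s * b.t - a.t * b.s) * a.t - (1/2) * a.e * b.t
  q1 := a.q1 + b.q1 + (1/2) * ((1/2) * (a.s * a.t * b.e + a.e * b.s * b.t)
      - (1/4) * a.s^2 * b.t^2 + (1/4) * a.t^2 * b.s^2
      + a.s * (b.v2 - (1/2) * b.e * b.t) - a.t * (-b.v1 + (1/2) * b.e * b.s)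
      - a.v1 * b.t - a.v2 * b.s)
  q2 := a.q2 + b.q2 - (1/4) * (a.s * a.t + a.e) * b.s^2 + (1/4) * a.s^2 * (b.s * b.t - b.e)
      + a.s * (-b.v1 + (1/2) * b.e * b.s) + a.v1 * b.s
  q3 := a.q3 + b.q3 + (1/4) * a.t^2 * (b.s * b.t + b.e) - (1/4) * (a.s * a.t - a.e) * b.t^2
      + a.t * (b.v2 - (1/2) * b.e * b.t) - a.v2 * b.t
  w1 := a.w1 + b.w1 + b.e * a.v1 + ((1/2) * b.e^2 + (b.s * b.v2 - b.t * b.v1)) * a.s
      + (1/2) * (a.s * b.v2 - a.t * b.v1) * a.s - (1/2) * a.e * b.v1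
      + (a.q1 * b.s + a.q2 * b.t) + (1/2) * ((1/4) * a.e^2 + (a.s * a.v2 - a.t * a.v1)) * b.s
  w2 := a.w2 + b.w2 + b.e * a.v2 + ((1/2) * b.e^2 + (b.s * b.v2 - b.t * b.v1)) * a.t
      + (1/2) * (a.s * b.v2 - a.t * b.v1) * a.t - (1/2) * a.e * b.v2
      + (a.q3 * b.s - a.q1 * b.t) + (1/2) * ((1/4) * a.e^2 + (a.s * a.v2 - a.t * a.v1)) * b.t
  p1 := a.p1 + b.p1 + b.s * a.t
  p2 := a.p2 + b.p2 + b.s * a.p1 + (1/2) * b.s^2 * a.t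
  p3 := a.p3 + b.p3 + b.s * a.p2 + (1/2) * b.s^2 * a.p1 + (1/6) * b.s^3 * a.t
  r1 := a.r1 + b.r1 + b.t * a.s
  r2 := a.r2 + b.r2 + b.t * a.r1 + (1/2) * b.t^2 * a.s
  r3 := a.r3 + b.r3 + b.t * a.r2 + (1/2) * b.t^2 * a.r1 + (1/6) * b.t^3 * a.s
  z := a.z + b.z + ((1/2) * a.e^2 + (a.s * a.v2 - a.t * a.v1)) * b.e
      + a.e * ((1/2) * b.e^2 + (b.s * b.v2 - b.t * b.v1))
      + (a.s * b.w2 - a.t * b.w1) - (a.v1 * b.v2 - a.v2 * b.v1)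
      + (1/2) * a.e * (a.s * b.v2 - a.t * b.v1)
      + (a.w1 * b.t - a.w2 * b.s) - (1/2) * a.e * (a.v1 * b.t - a.v2 * b.s)
      + a.s * (a.q3 * b.s - a.q1 * b.t) - a.t * (a.q1 * b.s + a.q2 * b.t)
      + (1/8) * a.e^2 * (a.s * b.t - a.t * b.s)
      + (b.s * a.p3 + (1/2) * b.s^2 * a.p2 + (1/6) * b.s^3 * a.p1 + (1/24) * b.s^4 * a.t)
      + (b.t * a.r3 + (1/2) * b.t^2 * a.r2 + (1/6) * b.t^3 * a.r1 + (1/24) * b.t^4 * a.s)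

/-- The inverse. -/
def inv' (a : T) : T where
  s := - a.s
  t := - a.t
  e := - a.e
  v1 := - a.v1 + (1/2) * a.e * a.s
  v2 := - a.v2 + (1/2) * a.e * a.t
  q1 := - a.q1
  q2 := - a.q2
  q3 := - a.q3
  w1 := - a.w1 + (1/2) * a.e * a.v1 + (a.q1 * a.s + a.q2 * a.t) - (1/8) * a.e^2 * a.s
  w2 := - a.w2 + (1/2) * a.e * a.v2 + (a.q3 * a.s - a.q1 * a.t) - (1/8) * a.e^2 * a.t
  p1 := - (a.p1 - a.s * a.t)
  p2 := - (a.p2 - a.s * a.p1 + (1/2) * a.s^2 * a.t)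
  p3 := - (a.p3 - a.s * a.p2 + (1/2) * a.s^2 * a.p1 - (1/6) * a.s^3 * a.t)
  r1 := - (a.r1 - a.t * a.s)
  r2 := - (a.r2 - a.t * a.r1 + (1/2) * a.t^2 * a.s)
  r3 := - (a.r3 - a.t * a.r2 + (1/2) * a.t^2 * a.r1 - (1/6) * a.t^3 * a.s)
  z := - a.z - ( - a.s * a.p3 + (1/2) * a.s^2 * a.p2 - (1/6) * a.s^3 * a.p1 + (1/24) * a.s^4 * a.t)
      - ( - a.t * a.r3 + (1/2) * a.t^2 * a.r2 - (1/6) * a.t^3 * a.r1 + (1/24) * a.t^4 * a.s)

/-- The identity. -/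
def one' : T := ⟨0,0,0,0,0,0,0,0,0,0,0,0,0,0,0,0,0⟩

theorem mul_assoc' (a b c : T) : mul' (mul' a b) c = mul' a (mul' b c) := by
  ext <;> simp only [mul'] <;> push_cast <;> ring

theorem one_mul' (a : T) : mul' one' a = a := by
  ext <;> simp [mul', one']

theorem inv_mul' (a : T) : mul' (inv' a) a = one' := by
  ext <;> simp only [mul', inv', one'] <;> push_cast <;> ring

instance : Mul T := ⟨mul'⟩
instance : One T := ⟨one'⟩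
instance : Inv T := ⟨inv'⟩

instance : Group T := Group.ofLeftAxioms mul_assoc' one_mul' inv_mul'

theorem mul_s (a b : T) : (a * b).s = a.s + b.s := rfl

theorem mul_t (a b : T) : (a * b).t = a.t + b.t := rfl

theorem mul_e (a b : T) : (a * b).e = a.e + b.e + (a.s * b.t - a.t * b.s) := rfl

theorem mul_v1 (a b : T) : (a * b).v1 = a.v1 + b.v1 + b.e * a.s + (1/2) * (a.s * b.t - a.t * b.s) * a.s - (1/2) * a.e * b.s := rfl

theorem mul_v2 (a b : T) : (a * b).v2 = a.v2 + b.v2 + b.e * a.t + (1/2) * (a.s * b.t - a.t * b.s) * a.t - (1/2) * a.e * b.t := rfl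

theorem mul_q1 (a b : T) : (a * b).q1 = a.q1 + b.q1 + (1/2) * ((1/2) * (a.s * a.t * b.e + a.e * b.s * b.t)
      - (1/4) * a.s^2 * b.t^2 + (1/4) * a.t^2 * b.s^2
      + a.s * (b.v2 - (1/2) * b.e * b.t) - a.t * (-b.v1 + (1/2) * b.e * b.s)
      - a.v1 * b.t - a.v2 * b.s) := rfl

theorem mul_q2 (a b : T) : (a * b).q2 = a.q2 + b.q2 - (1/4) * (a.s * a.t + a.e) * b.s^2 + (1/4) * a.s^2 * (b.s * b.t - b.e)
      + a.s * (-b.v1 + (1/2) * b.e * b.s) + a.v1 * b.s := rfl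

theorem mul_q3 (a b : T) : (a * b).q3 = a.q3 + b.q3 + (1/4) * a.t^2 * (b.s * b.t + b.e) - (1/4) * (a.s * a.t - a.e) * b.t^2
      + a.t * (b.v2 - (1/2) * b.e * b.t) - a.v2 * b.t := rfl

theorem mul_w1 (a b : T) : (a * b).w1 = a.w1 + b.w1 + b.e * a.v1 + ((1/2) * b.e^2 + (b.s * b.v2 - b.t * b.v1)) * a.s
      + (1/2) * (a.s * b.v2 - a.t * b.v1) * a.s - (1/2) * a.e * b.v1
      + (a.q1 * b.s + a.q2 * b.t) + (1/2) * ((1/4) * a.e^2 + (a.s * a.v2 - a.t * a.v1)) * b.s := rfl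

theorem mul_w2 (a b : T) : (a * b).w2 = a.w2 + b.w2 + b.e * a.v2 + ((1/2) * b.e^2 + (b.s * b.v2 - b.t * b.v1)) * a.t
      + (1/2) * (a.s * b.v2 - a.t * b.v1) * a.t - (1/2) * a.e * b.v2
      + (a.q3 * b.s - a.q1 * b.t) + (1/2) * ((1/4) * a.e^2 + (a.s * a.v2 - a.t * a.v1)) * b.t := rfl

theorem mul_p1 (a b : T) : (a * b).p1 = a.p1 + b.p1 + b.s * a.t := rfl

theorem mul_p2 (a b : T) : (a * b).p2 = a.p2 + b.p2 + b.s * a.p1 + (1/2) * b.s^2 * a.t := rfl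

theorem mul_p3 (a b : T) : (a * b).p3 = a.p3 + b.p3 + b.s * a.p2 + (1/2) * b.s^2 * a.p1 + (1/6) * b.s^3 * a.t := rfl

theorem mul_r1 (a b : T) : (a * b).r1 = a.r1 + b.r1 + b.t * a.s := rfl

theorem mul_r2 (a b : T) : (a * b).r2 = a.r2 + b.r2 + b.t * a.r1 + (1/2) * b.t^2 * a.s := rfl

theorem mul_r3 (a b : T) : (a * b).r3 = a.r3 + b.r3 + b.t * a.r2 + (1/2) * b.t^2 * a.r1 + (1/6) * b.t^3 * a.s := rfl

theorem mul_z (a b : T) : (a * b).z = a.z + b.z + ((1/2) * a.e^2 + (a.s * a.v2 - a.t * a.v1)) * b.e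
      + a.e * ((1/2) * b.e^2 + (b.s * b.v2 - b.t * b.v1))
      + (a.s * b.w2 - a.t * b.w1) - (a.v1 * b.v2 - a.v2 * b.v1)
      + (1/2) * a.e * (a.s * b.v2 - a.t * b.v1)
      + (a.w1 * b.t - a.w2 * b.s) - (1/2) * a.e * (a.v1 * b.t - a.v2 * b.s)
      + a.s * (a.q3 * b.s - a.q1 * b.t) - a.t * (a.q1 * b.s + a.q2 * b.t)
      + (1/8) * a.e^2 * (a.s * b.t - a.t * b.s)
      + (b.s * a.p3 + (1/2) * b.s^2 * a.p2 + (1/6) * b.s^3 * a.p1 + (1/24) * b.s^4 * a.t)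
      + (b.t * a.r3 + (1/2) * b.t^2 * a.r2 + (1/6) * b.t^3 * a.r1 + (1/24) * b.t^4 * a.s) := rfl

theorem inv_s (a : T) : (a⁻¹).s = - a.s := rfl

theorem inv_t (a : T) : (a⁻¹).t = - a.t := rfl

theorem inv_e (a : T) : (a⁻¹).e = - a.e := rfl

theorem inv_v1 (a : T) : (a⁻¹).v1 = - a.v1 + (1/2) * a.e * a.s := rfl

theorem inv_v2 (a : T) : (a⁻¹).v2 = - a.v2 + (1/2) * a.e * a.t := rfl

theorem inv_q1 (a : T) : (a⁻¹).q1 = - a.q1 := rfl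

theorem inv_q2 (a : T) : (a⁻¹).q2 = - a.q2 := rfl

theorem inv_q3 (a : T) : (a⁻¹).q3 = - a.q3 := rfl

theorem inv_w1 (a : T) : (a⁻¹).w1 = - a.w1 + (1/2) * a.e * a.v1 + (a.q1 * a.s + a.q2 * a.t) - (1/8) * a.e^2 * a.s := rfl

theorem inv_w2 (a : T) : (a⁻¹).w2 = - a.w2 + (1/2) * a.e * a.v2 + (a.q3 * a.s - a.q1 * a.t) - (1/8) * a.e^2 * a.t := rfl

theorem inv_p1 (a : T) : (a⁻¹).p1 = - (a.p1 - a.s * a.t) := rfl

theorem inv_p2 (a : T) : (a⁻¹).p2 = - (a.p2 - a.s * a.p1 + (1/2) * a.s^2 * a.t) := rfl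

theorem inv_p3 (a : T) : (a⁻¹).p3 = - (a.p3 - a.s * a.p2 + (1/2) * a.s^2 * a.p1 - (1/6) * a.s^3 * a.t) := rfl

theorem inv_r1 (a : T) : (a⁻¹).r1 = - (a.r1 - a.t * a.s) := rfl

theorem inv_r2 (a : T) : (a⁻¹).r2 = - (a.r2 - a.t * a.r1 + (1/2) * a.t^2 * a.s) := rfl

theorem inv_r3 (a : T) : (a⁻¹).r3 = - (a.r3 - a.t * a.r2 + (1/2) * a.t^2 * a.r1 - (1/6) * a.t^3 * a.s) := rfl

theorem inv_z (a : T) : (a⁻¹).z = - a.z - ( - a.s * a.p3 + (1/2) * a.s^2 * a.p2 - (1/6) * a.s^3 * a.p1 + (1/24) * a.s^4 * a.t)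
      - ( - a.t * a.r3 + (1/2) * a.t^2 * a.r2 - (1/6) * a.t^3 * a.r1 + (1/24) * a.t^4 * a.s) := rfl

theorem one_s : (1 : T).s = 0 := rfl

theorem one_t : (1 : T).t = 0 := rfl

theorem one_e : (1 : T).e = 0 := rfl

theorem one_v1 : (1 : T).v1 = 0 := rfl

theorem one_v2 : (1 : T).v2 = 0 := rfl

theorem one_q1 : (1 : T).q1 = 0 := rfl

theorem one_q2 : (1 : T).q2 = 0 := rfl

theorem one_q3 : (1 : T).q3 = 0 := rfl

theorem one_w1 : (1 : T).w1 = 0 := rfl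

theorem one_w2 : (1 : T).w2 = 0 := rfl

theorem one_p1 : (1 : T).p1 = 0 := rfl

theorem one_p2 : (1 : T).p2 = 0 := rfl

theorem one_p3 : (1 : T).p3 = 0 := rfl

theorem one_r1 : (1 : T).r1 = 0 := rfl

theorem one_r2 : (1 : T).r2 = 0 := rfl

theorem one_r3 : (1 : T).r3 = 0 := rfl

theorem one_z : (1 : T).z = 0 := rfl

/-- The commutator. -/
def cm (g h : T) : T := g * h * g⁻¹ * h⁻¹

theorem cm_rel (g h : T) : cm g h * (h * g) = g * h := by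
  simp only [cm]; group

/-- The central elements. -/
def zel (q : ℚ) : T := ⟨0,0,0,0,0,0,0,0,0,0,0,0,0,0,0,0,q⟩

theorem zel_add (q q' : ℚ) : zel (q + q') = zel q * zel q' := by
  ext <;> simp [zel, mul_s, mul_t, mul_e, mul_v1, mul_v2, mul_q1, mul_q2, mul_q3, mul_w1, mul_w2,
    mul_p1, mul_p2, mul_p3, mul_r1, mul_r2, mul_r3, mul_z]

theorem zel_zero : zel 0 = 1 := rfl

theorem zel_neg (q : ℚ) : zel (-q) = (zel q)⁻¹ := by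
  rw [eq_inv_iff_mul_eq_one, ← zel_add, neg_add_cancel, zel_zero]

/-- The symplectic form on the image in `ℤ²`. -/
def om (g h : T) : ℤ := g.s * h.t - g.t * h.s

theorem cm_lev1 (g h : T) : (cm g h).s = 0 ∧ (cm g h).t = 0 ∧ (cm g h).e = 2 * (om g h : ℚ) ∧
    (cm g h).p1 = - (om g h : ℚ) ∧ (cm g h).r1 = (om g h : ℚ) := by
  have E := cm_rel g h
  generalize cm g h = k at E
  have hs : k.s = 0 := by
    have := congrArg T.s E; simp only [mul_s] at this; linarith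
  have ht : k.t = 0 := by
    have := congrArg T.t E; simp only [mul_t] at this; linarith
  refine ⟨hs, ht, ?_, ?_, ?_⟩
  · have := congrArg T.e E
    simp only [mul_e, mul_s, mul_t, hs, ht] at this
    push_cast [om] at this ⊢
    linarith
  · have := congrArg T.p1 E
    simp only [mul_p1, mul_s, mul_t, hs, ht] at this
    push_cast [om] at this ⊢
    linarith
  · have := congrArg T.r1 E
    simp only [mul_r1, mul_s, mul_t, hs, ht] at this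
    push_cast [om] at this ⊢
    linarith

theorem cm_lev2 (g h : T) (gs : g.s = 0) (gt : g.t = 0) :
    (cm g h).s = 0 ∧ (cm g h).t = 0 ∧ (cm g h).e = 0 ∧ (cm g h).p1 = 0 ∧ (cm g h).r1 = 0 ∧
    (cm g h).v1 = - (3/2) * g.e * h.s ∧ (cm g h).v2 = - (3/2) * g.e * h.t ∧
    (cm g h).p2 = h.s * g.p1 ∧ (cm g h).r2 = h.t * g.r1 ∧
    (cm g h).q1 = - (g.v1 * h.t + g.v2 * h.s) - (3/2) * g.e * h.s * h.t ∧
    (cm g h).q2 = 2 * g.v1 * h.s + (3/2) * g.e * h.s ^ 2 ∧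
    (cm g h).q3 = - 2 * g.v2 * h.t - (3/2) * g.e * h.t ^ 2 := by
  obtain ⟨hs, ht, he, hp, hr⟩ := cm_lev1 g h
  have ho : om g h = 0 := by simp [om, gs, gt]
  rw [ho] at he hp hr
  simp only [Int.cast_zero, mul_zero, neg_zero] at he hp hr
  have E := cm_rel g h
  generalize cm g h = k at *
  have hv1 : k.v1 = - (3/2) * g.e * h.s := by
    have := congrArg T.v1 E
    simp only [mul_v1, mul_e, mul_s, mul_t, hs, ht, gs, gt, he] at this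
    push_cast at this
    linarith
  have hv2 : k.v2 = - (3/2) * g.e * h.t := by
    have := congrArg T.v2 E
    simp only [mul_v2, mul_e, mul_s, mul_t, hs, ht, gs, gt, he] at this
    push_cast at this
    linarith
  have hp2 : k.p2 = h.s * g.p1 := by
    have := congrArg T.p2 E
    simp only [mul_p2, mul_p1, mul_e, mul_s, mul_t, hs, ht, gs, gt, he, hp] at this
    push_cast at this
    linarith
  have hr2 : k.r2 = h.t * g.r1 := by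
    have := congrArg T.r2 E
    simp only [mul_r2, mul_r1, mul_e, mul_s, mul_t, hs, ht, gs, gt, he, hr] at this
    push_cast at this
    linarith
  refine ⟨hs, ht, he, hp, hr, hv1, hv2, hp2, hr2, ?_, ?_, ?_⟩
  · have := congrArg T.q1 E
    simp only [mul_q1, mul_v1, mul_v2, mul_e, mul_s, mul_t, hs, ht, gs, gt, he, hv1, hv2] at this
    push_cast at this
    linarith
  · have := congrArg T.q2 E
    simp only [mul_q2, mul_v1, mul_v2, mul_e, mul_s, mul_t, hs, ht, gs, gt, he, hv1, hv2] at this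
    push_cast at this
    linarith
  · have := congrArg T.q3 E
    simp only [mul_q3, mul_v1, mul_v2, mul_e, mul_s, mul_t, hs, ht, gs, gt, he, hv1, hv2] at this
    push_cast at this
    linarith

theorem cm_lev3 (g h : T) (gs : g.s = 0) (gt : g.t = 0) (ge : g.e = 0) (gp1 : g.p1 = 0)
    (gr1 : g.r1 = 0) :
    (cm g h).s = 0 ∧ (cm g h).t = 0 ∧ (cm g h).e = 0 ∧ (cm g h).p1 = 0 ∧ (cm g h).r1 = 0 ∧
    (cm g h).v1 = 0 ∧ (cm g h).v2 = 0 ∧ (cm g h).p2 = 0 ∧ (cm g h).r2 = 0 ∧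
    (cm g h).q1 = - (g.v1 * h.t + g.v2 * h.s) ∧
    (cm g h).q2 = 2 * g.v1 * h.s ∧
    (cm g h).q3 = - 2 * g.v2 * h.t ∧
    (cm g h).p3 = h.s * g.p2 ∧ (cm g h).r3 = h.t * g.r2 ∧
    (cm g h).w1 = (3/2) * h.e * g.v1 + (g.q1 * h.s + g.q2 * h.t)
      + (1/2) * (h.s * g.v2 - h.t * g.v1) * h.s ∧
    (cm g h).w2 = (3/2) * h.e * g.v2 + (g.q3 * h.s - g.q1 * h.t)
      + (1/2) * (h.s * g.v2 - h.t * g.v1) * h.t := by
  obtain ⟨hs, ht, he, hp, hr, hv1, hv2, hp2, hr2, hq1, hq2, hq3⟩ := cm_lev2 g h gs gt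
  rw [ge] at hv1 hv2 hq1 hq2 hq3
  rw [gp1] at hp2
  rw [gr1] at hr2
  simp only [mul_zero, zero_mul, sub_zero, add_zero] at hv1 hv2 hq1 hq2 hq3 hp2 hr2
  have E := cm_rel g h
  generalize cm g h = k at *
  refine ⟨hs, ht, he, hp, hr, hv1, hv2, hp2, hr2, hq1, hq2, hq3, ?_, ?_, ?_, ?_⟩
  · have := congrArg T.p3 E
    simp only [mul_p3, mul_p2, mul_p1, mul_s, mul_t, hs, ht, gs, gt, hp, hp2, gp1] at this
    push_cast at this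
    linarith
  · have := congrArg T.r3 E
    simp only [mul_r3, mul_r2, mul_r1, mul_s, mul_t, hs, ht, gs, gt, hr, hr2, gr1] at this
    push_cast at this
    linarith
  · have := congrArg T.w1 E
    simp only [mul_w1, mul_v1, mul_v2, mul_e, mul_s, mul_t, hs, ht, gs, gt, he, hv1, hv2, ge,
      hq1, hq2, hq3] at this
    push_cast at this
    linarith
  · have := congrArg T.w2 E
    simp only [mul_w2, mul_v1, mul_v2, mul_e, mul_s, mul_t, hs, ht, gs, gt, he, hv1, hv2, ge,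
      hq1, hq2, hq3] at this
    push_cast at this
    linarith

theorem cm_lev4 (g h : T) (gs : g.s = 0) (gt : g.t = 0) (ge : g.e = 0) (gp1 : g.p1 = 0)
    (gr1 : g.r1 = 0) (gv1 : g.v1 = 0) (gv2 : g.v2 = 0) (gp2 : g.p2 = 0) (gr2 : g.r2 = 0) :
    (cm g h).s = 0 ∧ (cm g h).t = 0 ∧ (cm g h).e = 0 ∧ (cm g h).p1 = 0 ∧ (cm g h).r1 = 0 ∧
    (cm g h).v1 = 0 ∧ (cm g h).v2 = 0 ∧ (cm g h).p2 = 0 ∧ (cm g h).r2 = 0 ∧
    (cm g h).q1 = 0 ∧ (cm g h).q2 = 0 ∧ (cm g h).q3 = 0 ∧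
    (cm g h).p3 = 0 ∧ (cm g h).r3 = 0 ∧
    (cm g h).w1 = g.q1 * h.s + g.q2 * h.t ∧
    (cm g h).w2 = g.q3 * h.s - g.q1 * h.t ∧
    (cm g h).z = 2 * (g.w1 * h.t - g.w2 * h.s) + h.s * g.p3 + h.t * g.r3
      - ((g.q1 * h.s + g.q2 * h.t) * h.t - (g.q3 * h.s - g.q1 * h.t) * h.s) := by
  obtain ⟨hs, ht, he, hp, hr, hv1, hv2, hp2, hr2, hq1, hq2, hq3, hp3, hr3, hw1, hw2⟩ :=
    cm_lev3 g h gs gt ge gp1 gr1
  rw [gv1, gv2] at hq1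
  rw [gv1] at hq2
  rw [gv2] at hq3
  rw [gp2] at hp3
  rw [gr2] at hr3
  rw [gv1, gv2] at hw1 hw2
  simp only [mul_zero, zero_mul, sub_zero, add_zero, neg_zero, zero_add] at hq1 hq2 hq3 hp3 hr3
  simp only [mul_zero, zero_mul, sub_zero, add_zero, neg_zero, zero_add] at hw1 hw2
  have E := cm_rel g h
  generalize cm g h = k at *
  refine ⟨hs, ht, he, hp, hr, hv1, hv2, hp2, hr2, hq1, hq2, hq3, hp3, hr3, hw1, hw2, ?_⟩
  have := congrArg T.z E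
  simp only [mul_z, mul_w1, mul_w2, mul_q1, mul_q2, mul_q3, mul_v1, mul_v2, mul_e, mul_s, mul_t,
    mul_p3, mul_p2, mul_p1, mul_r3, mul_r2, mul_r1,
    hs, ht, gs, gt, he, hv1, hv2, ge, hq1, hq2, hq3, hw1, hw2, hp, hp2, hp3, hr, hr2, hr3,
    gv1, gv2, gp1, gp2, gr1, gr2] at this
  push_cast at this
  linarith

theorem cm_lev5 (g h : T) (gs : g.s = 0) (gt : g.t = 0) (ge : g.e = 0) (gp1 : g.p1 = 0)
    (gr1 : g.r1 = 0) (gv1 : g.v1 = 0) (gv2 : g.v2 = 0) (gp2 : g.p2 = 0) (gr2 : g.r2 = 0)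
    (gq1 : g.q1 = 0) (gq2 : g.q2 = 0) (gq3 : g.q3 = 0) (gp3 : g.p3 = 0) (gr3 : g.r3 = 0) :
    cm g h = zel (2 * (g.w1 * h.t - g.w2 * h.s)) := by
  obtain ⟨hs, ht, he, hp, hr, hv1, hv2, hp2, hr2, hq1, hq2, hq3, hp3, hr3, hw1, hw2, hz⟩ :=
    cm_lev4 g h gs gt ge gp1 gr1 gv1 gv2 gp2 gr2
  rw [gq1, gq2] at hw1
  rw [gq1, gq3] at hw2
  rw [gq1, gq2, gq3, gp3, gr3] at hz
  ext
  · simp [zel, hs]
  · simp [zel, ht]
  · simp [zel, he]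
  · simp [zel, hv1]
  · simp [zel, hv2]
  · simp [zel, hq1]
  · simp [zel, hq2]
  · simp [zel, hq3]
  · simp [zel, hw1]
  · simp [zel, hw2]
  · simp [zel, hp]
  · simp [zel, hp2]
  · simp [zel, hp3]
  · simp [zel, hr]
  · simp [zel, hr2]
  · simp [zel, hr3]
  · simp only [zel, hz]; ring

/-- The cubic law. -/
theorem cubic (a b c : T) : cm (cm (cm (cm a b) c) c) c = zel (om a b * (c.t ^ 3 - c.s ^ 3)) := by
  obtain ⟨as, at', ae, ap1, ar1⟩ := cm_lev1 a b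
  generalize cm a b = k1 at *
  obtain ⟨bs, bt, be, bp1, br1, bv1, bv2, bp2, br2, bq1, bq2, bq3⟩ := cm_lev2 k1 c as at'
  generalize cm k1 c = k2 at *
  obtain ⟨cs, ct, ce, cp1, cr1, cv1, cv2, cp2, cr2, cq1, cq2, cq3, cp3, cr3, cw1, cw2⟩ :=
    cm_lev3 k2 c bs bt be bp1 br1
  generalize cm k2 c = k3 at *
  obtain ⟨ds, dt, de, dp1, dr1, dv1, dv2, dp2, dr2, dq1, dq2, dq3, dp3, dr3, dw1, dw2, dz⟩ :=
    cm_lev4 k3 c cs ct ce cp1 cr1 cv1 cv2 cp2 cr2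
  generalize cm k3 c = k4 at *
  ext
  · simp [zel, ds]
  · simp [zel, dt]
  · simp [zel, de]
  · simp [zel, dv1]
  · simp [zel, dv2]
  · simp [zel, dq1]
  · simp [zel, dq2]
  · simp [zel, dq3]
  · simp only [zel, dw1, cq1, cq2, bv1, bv2]; ring
  · simp only [zel, dw2, cq1, cq3, bv1, bv2]; ring
  · simp [zel, dp1]
  · simp [zel, dp2]
  · simp [zel, dp3]
  · simp [zel, dr1]
  · simp [zel, dr2]
  · simp [zel, dr3]
  · simp only [zel, dz, cw1, cw2, cp3, cr3, cq1, cq2, cq3, bv1, bv2, bp2, br2, bq1, bq2, bq3, ap1, ar1]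
    ring

theorem conj_lev2 {x g y : T} (E : y * x = x * g) (gs : g.s = 0) (gt : g.t = 0) :
    y.s = 0 ∧ y.t = 0 ∧ y.e = g.e ∧ y.p1 = g.p1 ∧ y.r1 = g.r1 := by
  have hs : y.s = 0 := by
    have := congrArg T.s E; simp only [mul_s] at this; linarith
  have ht : y.t = 0 := by
    have := congrArg T.t E; simp only [mul_t] at this; linarith
  refine ⟨hs, ht, ?_, ?_, ?_⟩
  · have := congrArg T.e E
    simp only [mul_e, gs, gt, hs, ht] at this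
    push_cast at this
    linarith
  · have := congrArg T.p1 E
    simp only [mul_p1, gs, gt, hs, ht] at this
    push_cast at this
    linarith
  · have := congrArg T.r1 E
    simp only [mul_r1, gs, gt, hs, ht] at this
    push_cast at this
    linarith

theorem conj_lev3 {x g y : T} (E : y * x = x * g) (gs : g.s = 0) (gt : g.t = 0)
    (ge : g.e = 0) (gp1 : g.p1 = 0) (gr1 : g.r1 = 0) :
    y.v1 = g.v1 ∧ y.v2 = g.v2 ∧ y.p2 = g.p2 ∧ y.r2 = g.r2 := by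
  obtain ⟨hs, ht, he, hp1, hr1⟩ := conj_lev2 E gs gt
  rw [ge] at he
  rw [gp1] at hp1
  rw [gr1] at hr1
  refine ⟨?_, ?_, ?_, ?_⟩
  · have := congrArg T.v1 E
    simp only [mul_v1, gs, gt, hs, ht, he, ge] at this
    push_cast at this
    linarith
  · have := congrArg T.v2 E
    simp only [mul_v2, gs, gt, hs, ht, he, ge] at this
    push_cast at this
    linarith
  · have := congrArg T.p2 E
    simp only [mul_p2, gs, gt, hs, ht, hp1, gp1] at this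
    push_cast at this
    linarith
  · have := congrArg T.r2 E
    simp only [mul_r2, gs, gt, hs, ht, hr1, gr1] at this
    push_cast at this
    linarith

theorem conj_lev4 {x g y : T} (E : y * x = x * g) (gs : g.s = 0) (gt : g.t = 0)
    (ge : g.e = 0) (gp1 : g.p1 = 0) (gr1 : g.r1 = 0) (gv1 : g.v1 = 0) (gv2 : g.v2 = 0)
    (gp2 : g.p2 = 0) (gr2 : g.r2 = 0) :
    y.q1 = g.q1 ∧ y.q2 = g.q2 ∧ y.q3 = g.q3 ∧ y.p3 = g.p3 ∧ y.r3 = g.r3 := by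
  obtain ⟨hs, ht, he, hp1, hr1⟩ := conj_lev2 E gs gt
  obtain ⟨hv1, hv2, hp2, hr2⟩ := conj_lev3 E gs gt ge gp1 gr1
  rw [ge] at he
  rw [gp1] at hp1
  rw [gr1] at hr1
  rw [gv1] at hv1
  rw [gv2] at hv2
  rw [gp2] at hp2
  rw [gr2] at hr2
  refine ⟨?_, ?_, ?_, ?_, ?_⟩
  · have := congrArg T.q1 E
    simp only [mul_q1, gs, gt, hs, ht, he, ge, hv1, hv2, gv1, gv2] at this
    push_cast at this
    linarith
  · have := congrArg T.q2 E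
    simp only [mul_q2, gs, gt, hs, ht, he, ge, hv1, hv2, gv1, gv2] at this
    push_cast at this
    linarith
  · have := congrArg T.q3 E
    simp only [mul_q3, gs, gt, hs, ht, he, ge, hv1, hv2, gv1, gv2] at this
    push_cast at this
    linarith
  · have := congrArg T.p3 E
    simp only [mul_p3, gs, gt, hs, ht, hp1, gp1, hp2, gp2] at this
    push_cast at this
    linarith
  · have := congrArg T.r3 E
    simp only [mul_r3, gs, gt, hs, ht, hr1, gr1, hr2, gr2] at this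
    push_cast at this
    linarith

theorem conj_lev5 {x g y : T} (E : y * x = x * g) (gs : g.s = 0) (gt : g.t = 0)
    (ge : g.e = 0) (gp1 : g.p1 = 0) (gr1 : g.r1 = 0) (gv1 : g.v1 = 0) (gv2 : g.v2 = 0)
    (gp2 : g.p2 = 0) (gr2 : g.r2 = 0)
    (gq1 : g.q1 = 0) (gq2 : g.q2 = 0) (gq3 : g.q3 = 0) :
    y.w1 = g.w1 ∧ y.w2 = g.w2 := by
  obtain ⟨hs, ht, he, hp1, hr1⟩ := conj_lev2 E gs gt
  obtain ⟨hv1, hv2, hp2, hr2⟩ := conj_lev3 E gs gt ge gp1 gr1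
  obtain ⟨hq1, hq2, hq3, hp3, hr3⟩ := conj_lev4 E gs gt ge gp1 gr1 gv1 gv2 gp2 gr2
  rw [ge] at he
  rw [gv1] at hv1
  rw [gv2] at hv2
  rw [gq1] at hq1
  rw [gq2] at hq2
  rw [gq3] at hq3
  refine ⟨?_, ?_⟩
  · have := congrArg T.w1 E
    simp only [mul_w1, gs, gt, hs, ht, he, ge, hv1, hv2, gv1, gv2, hq1, hq2, hq3, gq1, gq2,
      gq3] at this
    push_cast at this
    linarith
  · have := congrArg T.w2 E
    simp only [mul_w2, gs, gt, hs, ht, he, ge, hv1, hv2, gv1, gv2, hq1, hq2, hq3, gq1, gq2,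
      gq3] at this
    push_cast at this
    linarith

/-- Generic construction of the subgroups in the chain: `Γ` is a normal subgroup and `φ` a family
of functions that are additive on `Γ` and invariant under conjugation; we ask that the central
element with coordinate `φ i g` lies in `H` for all `i ∈ J`. -/
def mkP (H : Subgroup T) (Γ : Subgroup T) {ι : Type} (J : Set ι) (φ : ι → T → ℚ)
    (hadd : ∀ i, ∀ g ∈ Γ, ∀ g' ∈ Γ, φ i (g * g') = φ i g + φ i g') : Subgroup T where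
  carrier := {g | g ∈ Γ ∧ ∀ i ∈ J, zel (φ i g) ∈ H}
  mul_mem' := by
    rintro a b ⟨ha, ha'⟩ ⟨hb, hb'⟩
    refine ⟨Γ.mul_mem ha hb, fun i hi => ?_⟩
    rw [hadd i a ha b hb, zel_add]
    exact H.mul_mem (ha' i hi) (hb' i hi)
  one_mem' := by
    refine ⟨Γ.one_mem, fun i hi => ?_⟩
    have h1 := hadd i 1 Γ.one_mem 1 Γ.one_mem
    rw [mul_one] at h1
    have : φ i 1 = 0 := by linarith
    rw [this, zel_zero]
    exact H.one_mem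
  inv_mem' := by
    rintro a ⟨ha, ha'⟩
    refine ⟨Γ.inv_mem ha, fun i hi => ?_⟩
    have h1 := hadd i 1 Γ.one_mem 1 Γ.one_mem
    rw [mul_one] at h1
    have h2 := hadd i a ha a⁻¹ (Γ.inv_mem ha)
    rw [mul_inv_cancel] at h2
    have : φ i a⁻¹ = - φ i a := by linarith
    rw [this, zel_neg]
    exact H.inv_mem (ha' i hi)

theorem mem_mkP {H : Subgroup T} {Γ : Subgroup T} {ι : Type} {J : Set ι} {φ : ι → T → ℚ}
    {hadd : ∀ i, ∀ g ∈ Γ, ∀ g' ∈ Γ, φ i (g * g') = φ i g + φ i g'} {g : T} :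
    g ∈ mkP H Γ J φ hadd ↔ g ∈ Γ ∧ ∀ i ∈ J, zel (φ i g) ∈ H := Iff.rfl

theorem mkP_normal {H : Subgroup T} {Γ : Subgroup T} (hΓ : Γ.Normal) {ι : Type} {J : Set ι}
    {φ : ι → T → ℚ} {hadd : ∀ i, ∀ g ∈ Γ, ∀ g' ∈ Γ, φ i (g * g') = φ i g + φ i g'}
    (hinv : ∀ i, ∀ g ∈ Γ, ∀ x y : T, y * x = x * g → φ i y = φ i g) :
    (mkP H Γ J φ hadd).Normal := by
  constructor
  intro g hg x
  rw [mem_mkP] at hg ⊢
  refine ⟨hΓ.conj_mem g hg.1 x, fun i hi => ?_⟩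
  rw [hinv i g hg.1 x (x * g * x⁻¹) (by group)]
  exact hg.2 i hi

/-- Level two. -/
def Γ2 : Subgroup T where
  carrier := {g | g.s = 0 ∧ g.t = 0}
  mul_mem' := by
    rintro a b ⟨h1, h2⟩ ⟨h3, h4⟩
    exact ⟨by rw [mul_s, h1, h3]; rfl, by rw [mul_t, h2, h4]; rfl⟩
  one_mem' := ⟨rfl, rfl⟩
  inv_mem' := by
    rintro a ⟨h1, h2⟩
    exact ⟨by rw [inv_s, h1]; rfl, by rw [inv_t, h2]; rfl⟩

theorem mem_Γ2 {g : T} : g ∈ Γ2 ↔ g.s = 0 ∧ g.t = 0 := Iff.rfl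

instance Γ2_normal : Γ2.Normal := by
  constructor
  intro g hg x
  rw [mem_Γ2] at *
  obtain ⟨h1, h2, _⟩ := conj_lev2 (x := x) (g := g) (y := x * g * x⁻¹) (by group) hg.1 hg.2
  exact ⟨h1, h2⟩

/-- Level three. -/
def Γ3 : Subgroup T where
  carrier := {g | (g.s = 0 ∧ g.t = 0) ∧ g.e = 0 ∧ g.p1 = 0 ∧ g.r1 = 0}
  mul_mem' := by
    rintro a b ⟨⟨h1, h2⟩, h3, h4, h5⟩ ⟨⟨k1, k2⟩, k3, k4, k5⟩
    refine ⟨⟨?_, ?_⟩, ?_, ?_, ?_⟩
    · rw [mul_s, h1, k1]; rfl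
    · rw [mul_t, h2, k2]; rfl
    · simp [mul_e, h1, h2, h3, k1, k2, k3]
    · simp [mul_p1, h1, h2, h4, k1, k2, k4]
    · simp [mul_r1, h1, h2, h5, k1, k2, k5]
  one_mem' := ⟨⟨rfl, rfl⟩, rfl, rfl, rfl⟩
  inv_mem' := by
    rintro a ⟨⟨h1, h2⟩, h3, h4, h5⟩
    refine ⟨⟨?_, ?_⟩, ?_, ?_, ?_⟩
    · rw [inv_s, h1]; rfl
    · rw [inv_t, h2]; rfl
    · simp [inv_e, h3]
    · simp [inv_p1, h1, h4]
    · simp [inv_r1, h1, h5]

theorem mem_Γ3 {g : T} :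
    g ∈ Γ3 ↔ (g.s = 0 ∧ g.t = 0) ∧ g.e = 0 ∧ g.p1 = 0 ∧ g.r1 = 0 := Iff.rfl

instance Γ3_normal : Γ3.Normal := by
  constructor
  intro g hg x
  rw [mem_Γ3] at *
  obtain ⟨h1, h2, h3, h4, h5⟩ :=
    conj_lev2 (x := x) (g := g) (y := x * g * x⁻¹) (by group) hg.1.1 hg.1.2
  exact ⟨⟨h1, h2⟩, h3.trans hg.2.1, h4.trans hg.2.2.1, h5.trans hg.2.2.2⟩

/-- Level four. -/
def Γ4 : Subgroup T where
  carrier := {g | ((g.s = 0 ∧ g.t = 0) ∧ g.e = 0 ∧ g.p1 = 0 ∧ g.r1 = 0) ∧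
    g.v1 = 0 ∧ g.v2 = 0 ∧ g.p2 = 0 ∧ g.r2 = 0}
  mul_mem' := by
    rintro a b ⟨⟨⟨h1, h2⟩, h3, h4, h5⟩, h6, h7, h8, h9⟩ ⟨⟨⟨k1, k2⟩, k3, k4, k5⟩, k6, k7, k8, k9⟩
    refine ⟨⟨⟨?_, ?_⟩, ?_, ?_, ?_⟩, ?_, ?_, ?_, ?_⟩
    · rw [mul_s, h1, k1]; rfl
    · rw [mul_t, h2, k2]; rfl
    · simp [mul_e, h1, h2, h3, k1, k2, k3]
    · simp [mul_p1, h1, h2, h4, k1, k2, k4]
    · simp [mul_r1, h1, h2, h5, k1, k2, k5]
    · simp [mul_v1, h1, h2, h3, k1, k2, k3, h6, h7, k6, k7]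
    · simp [mul_v2, h1, h2, h3, k1, k2, k3, h6, h7, k6, k7]
    · simp [mul_p2, h1, h2, h4, k1, k2, k4, h8, k8]
    · simp [mul_r2, h1, h2, h5, k1, k2, k5, h9, k9]
  one_mem' := ⟨⟨⟨rfl, rfl⟩, rfl, rfl, rfl⟩, rfl, rfl, rfl, rfl⟩
  inv_mem' := by
    rintro a ⟨⟨⟨h1, h2⟩, h3, h4, h5⟩, h6, h7, h8, h9⟩
    refine ⟨⟨⟨?_, ?_⟩, ?_, ?_, ?_⟩, ?_, ?_, ?_, ?_⟩
    · rw [inv_s, h1]; rfl
    · rw [inv_t, h2]; rfl
    · simp [inv_e, h3]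
    · simp [inv_p1, h1, h4]
    · simp [inv_r1, h1, h5]
    · simp [inv_v1, h1, h3, h6]
    · simp [inv_v2, h2, h3, h7]
    · simp [inv_p2, h1, h8]
    · simp [inv_r2, h1, h2, h9]

theorem mem_Γ4 {g : T} :
    g ∈ Γ4 ↔ ((g.s = 0 ∧ g.t = 0) ∧ g.e = 0 ∧ g.p1 = 0 ∧ g.r1 = 0) ∧
    g.v1 = 0 ∧ g.v2 = 0 ∧ g.p2 = 0 ∧ g.r2 = 0 := Iff.rfl

instance Γ4_normal : Γ4.Normal := by
  constructor
  intro g hg x
  rw [mem_Γ4] at *
  obtain ⟨⟨⟨g1, g2⟩, g3, g4, g5⟩, g6, g7, g8, g9⟩ := hg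
  have E : (x * g * x⁻¹) * x = x * g := by group
  obtain ⟨h1, h2, h3, h4, h5⟩ := conj_lev2 E g1 g2
  obtain ⟨k1, k2, k3, k4⟩ := conj_lev3 E g1 g2 g3 g4 g5
  exact ⟨⟨⟨h1, h2⟩, h3.trans g3, h4.trans g4, h5.trans g5⟩, k1.trans g6, k2.trans g7,
    k3.trans g8, k4.trans g9⟩

/-- Level five. -/
def Γ5 : Subgroup T where
  carrier := {g | (((g.s = 0 ∧ g.t = 0) ∧ g.e = 0 ∧ g.p1 = 0 ∧ g.r1 = 0) ∧
    g.v1 = 0 ∧ g.v2 = 0 ∧ g.p2 = 0 ∧ g.r2 = 0) ∧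
    g.q1 = 0 ∧ g.q2 = 0 ∧ g.q3 = 0 ∧ g.p3 = 0 ∧ g.r3 = 0}
  mul_mem' := by
    rintro a b ⟨⟨⟨⟨h1, h2⟩, h3, h4, h5⟩, h6, h7, h8, h9⟩, h10, h11, h12, h13, h14⟩
      ⟨⟨⟨⟨k1, k2⟩, k3, k4, k5⟩, k6, k7, k8, k9⟩, k10, k11, k12, k13, k14⟩
    refine ⟨⟨⟨⟨?_, ?_⟩, ?_, ?_, ?_⟩, ?_, ?_, ?_, ?_⟩, ?_, ?_, ?_, ?_, ?_⟩
    · rw [mul_s, h1, k1]; rfl
    · rw [mul_t, h2, k2]; rfl
    · simp [mul_e, h1, h2, h3, k1, k2, k3]
    · simp [mul_p1, h1, h2, h4, k1, k2, k4]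
    · simp [mul_r1, h1, h2, h5, k1, k2, k5]
    · simp [mul_v1, h1, h2, h3, k1, k2, k3, h6, h7, k6, k7]
    · simp [mul_v2, h1, h2, h3, k1, k2, k3, h6, h7, k6, k7]
    · simp [mul_p2, h1, h2, h4, k1, k2, k4, h8, k8]
    · simp [mul_r2, h1, h2, h5, k1, k2, k5, h9, k9]
    · simp [mul_q1, h1, h2, h3, k1, k2, k3, h6, h7, k6, k7, h10, k10]
    · simp [mul_q2, h1, h2, h3, k1, k2, k3, h6, h7, k6, k7, h11, k11]
    · simp [mul_q3, h1, h2, h3, k1, k2, k3, h6, h7, k6, k7, h12, k12]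
    · simp [mul_p3, h1, h2, h4, k1, k2, k4, h8, k8, h13, k13]
    · simp [mul_r3, h1, h2, h5, k1, k2, k5, h9, k9, h14, k14]
  one_mem' := ⟨⟨⟨⟨rfl, rfl⟩, rfl, rfl, rfl⟩, rfl, rfl, rfl, rfl⟩, rfl, rfl, rfl, rfl, rfl⟩
  inv_mem' := by
    rintro a ⟨⟨⟨⟨h1, h2⟩, h3, h4, h5⟩, h6, h7, h8, h9⟩, h10, h11, h12, h13, h14⟩
    refine ⟨⟨⟨⟨?_, ?_⟩, ?_, ?_, ?_⟩, ?_, ?_, ?_, ?_⟩, ?_, ?_, ?_, ?_, ?_⟩
    · rw [inv_s, h1]; rfl
    · rw [inv_t, h2]; rfl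
    · simp [inv_e, h3]
    · simp [inv_p1, h1, h4]
    · simp [inv_r1, h1, h5]
    · simp [inv_v1, h1, h3, h6]
    · simp [inv_v2, h2, h3, h7]
    · simp [inv_p2, h1, h8]
    · simp [inv_r2, h1, h2, h9]
    · simp [inv_q1, h10]
    · simp [inv_q2, h11]
    · simp [inv_q3, h12]
    · simp [inv_p3, h1, h13]
    · simp [inv_r3, h1, h2, h14]

theorem mem_Γ5 {g : T} :
    g ∈ Γ5 ↔ (((g.s = 0 ∧ g.t = 0) ∧ g.e = 0 ∧ g.p1 = 0 ∧ g.r1 = 0) ∧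
    g.v1 = 0 ∧ g.v2 = 0 ∧ g.p2 = 0 ∧ g.r2 = 0) ∧
    g.q1 = 0 ∧ g.q2 = 0 ∧ g.q3 = 0 ∧ g.p3 = 0 ∧ g.r3 = 0 := Iff.rfl

instance Γ5_normal : Γ5.Normal := by
  constructor
  intro g hg x
  rw [mem_Γ5] at *
  obtain ⟨⟨⟨⟨g1, g2⟩, g3, g4, g5⟩, g6, g7, g8, g9⟩, g10, g11, g12, g13, g14⟩ := hg
  have E : (x * g * x⁻¹) * x = x * g := by group
  obtain ⟨h1, h2, h3, h4, h5⟩ := conj_lev2 E g1 g2
  obtain ⟨k1, k2, k3, k4⟩ := conj_lev3 E g1 g2 g3 g4 g5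
  obtain ⟨l1, l2, l3, l4, l5⟩ := conj_lev4 E g1 g2 g3 g4 g5 g6 g7 g8 g9
  exact ⟨⟨⟨⟨h1, h2⟩, h3.trans g3, h4.trans g4, h5.trans g5⟩, k1.trans g6, k2.trans g7,
    k3.trans g8, k4.trans g9⟩, l1.trans g10, l2.trans g11, l3.trans g12, l4.trans g13,
    l5.trans g14⟩

/-- Iterated commutator forms. -/
def φ4 (h : T) (g : T) : ℚ := 2 * (g.w1 * h.t - g.w2 * h.s)

/-- Iterated commutator forms. -/
def φ3 (h : T × T) (g : T) : ℚ :=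
  2 * ((g.q1 * h.1.s + g.q2 * h.1.t) * h.2.t - (g.q3 * h.1.s - g.q1 * h.1.t) * h.2.s)

/-- Iterated commutator forms. -/
def φ2 (h : T × T × T) (g : T) : ℚ :=
  2 * ((-(g.v1 * h.1.t + g.v2 * h.1.s) * h.2.1.s + (2 * g.v1 * h.1.s) * h.2.1.t) * h.2.2.t
    - ((-2 * g.v2 * h.1.t) * h.2.1.s + (g.v1 * h.1.t + g.v2 * h.1.s) * h.2.1.t) * h.2.2.s)

/-- Iterated commutator forms. -/
def φ1 (h : T × T × T × T) (g : T) : ℚ :=
  -3 * g.e * ((om h.1 h.2.2.2 : ℚ) * (om h.2.1 h.2.2.1 : ℚ)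
    + (om h.2.1 h.2.2.2 : ℚ) * (om h.1 h.2.2.1 : ℚ))

/-- Chain subgroup. -/
def P4 (H : Subgroup T) : Subgroup T :=
  mkP H Γ5 {h : T | h ∈ H} φ4 (by
    intro h g hg g' hg'
    rw [mem_Γ5] at hg hg'
    obtain ⟨⟨⟨⟨h1, h2⟩, h3, h4, h5⟩, h6, h7, h8, h9⟩, h10, h11, h12, h13, h14⟩ := hg
    obtain ⟨⟨⟨⟨k1, k2⟩, k3, k4, k5⟩, k6, k7, k8, k9⟩, k10, k11, k12, k13, k14⟩ := hg'
    simp only [φ4, mul_w1, mul_w2, h1, h2, h3, h6, h7, k1, k2, k3, k6, k7, h10, h11, h12]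
    push_cast
    ring)

/-- Chain subgroup. -/
def P3 (H : Subgroup T) : Subgroup T :=
  mkP H Γ4 {h : T × T | h.1 ∈ H ∧ h.2 ∈ H} φ3 (by
    intro h g hg g' hg'
    rw [mem_Γ4] at hg hg'
    obtain ⟨⟨⟨h1, h2⟩, h3, h4, h5⟩, h6, h7, h8, h9⟩ := hg
    obtain ⟨⟨⟨k1, k2⟩, k3, k4, k5⟩, k6, k7, k8, k9⟩ := hg'
    simp only [φ3, mul_q1, mul_q2, mul_q3, h1, h2, h3, h6, h7, k1, k2, k3, k6, k7]
    push_cast
    ring)

/-- Chain subgroup. -/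
def P2 (H : Subgroup T) : Subgroup T :=
  mkP H Γ3 {h : T × T × T | h.1 ∈ H ∧ h.2.1 ∈ H ∧ h.2.2 ∈ H} φ2 (by
    intro h g hg g' hg'
    rw [mem_Γ3] at hg hg'
    obtain ⟨⟨h1, h2⟩, h3, h4, h5⟩ := hg
    obtain ⟨⟨k1, k2⟩, k3, k4, k5⟩ := hg'
    simp only [φ2, mul_v1, mul_v2, h1, h2, h3, k1, k2, k3]
    push_cast
    ring)

/-- Chain subgroup. -/
def P1 (H : Subgroup T) : Subgroup T :=
  mkP H Γ2 {h : T × T × T × T | h.1 ∈ H ∧ h.2.1 ∈ H ∧ h.2.2.1 ∈ H ∧ h.2.2.2 ∈ H} φ1 (by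
    intro h g hg g' hg'
    rw [mem_Γ2] at hg hg'
    obtain ⟨h1, h2⟩ := hg
    obtain ⟨k1, k2⟩ := hg'
    simp only [φ1, mul_e, h1, h2, k1, k2]
    push_cast
    ring)

instance P4_normal (H : Subgroup T) : (P4 H).Normal := by
  apply mkP_normal Γ5_normal
  intro i g hg x y E
  rw [mem_Γ5] at hg
  obtain ⟨⟨⟨⟨h1, h2⟩, h3, h4, h5⟩, h6, h7, h8, h9⟩, h10, h11, h12, h13, h14⟩ := hg
  obtain ⟨k1, k2⟩ := conj_lev5 E h1 h2 h3 h4 h5 h6 h7 h8 h9 h10 h11 h12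
  simp only [φ4, k1, k2]

instance P3_normal (H : Subgroup T) : (P3 H).Normal := by
  apply mkP_normal Γ4_normal
  intro i g hg x y E
  rw [mem_Γ4] at hg
  obtain ⟨⟨⟨h1, h2⟩, h3, h4, h5⟩, h6, h7, h8, h9⟩ := hg
  obtain ⟨k1, k2, k3, _⟩ := conj_lev4 E h1 h2 h3 h4 h5 h6 h7 h8 h9
  simp only [φ3, k1, k2, k3]

instance P2_normal (H : Subgroup T) : (P2 H).Normal := by
  apply mkP_normal Γ3_normal
  intro i g hg x y E
  rw [mem_Γ3] at hg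
  obtain ⟨⟨h1, h2⟩, h3, h4, h5⟩ := hg
  obtain ⟨k1, k2, _⟩ := conj_lev3 E h1 h2 h3 h4 h5
  simp only [φ2, k1, k2]

instance P1_normal (H : Subgroup T) : (P1 H).Normal := by
  apply mkP_normal Γ2_normal
  intro i g hg x y E
  rw [mem_Γ2] at hg
  obtain ⟨_, _, k, _⟩ := conj_lev2 E hg.1 hg.2
  simp only [φ1, k]

theorem P4_le_P3 (H : Subgroup T) : P4 H ≤ P3 H := by
  intro g hg
  obtain ⟨⟨h0, h10, h11, h12, h13, h14⟩, _⟩ := hg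
  refine ⟨h0, fun i _ => ?_⟩
  have : φ3 i g = 0 := by simp [φ3, h10, h11, h12]
  rw [this, zel_zero]; exact H.one_mem

theorem P3_le_P2 (H : Subgroup T) : P3 H ≤ P2 H := by
  intro g hg
  obtain ⟨⟨h0, h6, h7, h8, h9⟩, _⟩ := hg
  refine ⟨h0, fun i _ => ?_⟩
  have : φ2 i g = 0 := by simp [φ2, h6, h7]
  rw [this, zel_zero]; exact H.one_mem

theorem P2_le_P1 (H : Subgroup T) : P2 H ≤ P1 H := by
  intro g hg
  obtain ⟨⟨h0, h6, h7, h8⟩, _⟩ := hg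
  refine ⟨h0, fun i _ => ?_⟩
  have : φ1 i g = 0 := by simp [φ1, h6]
  rw [this, zel_zero]; exact H.one_mem

theorem cm_P4 (H : Subgroup T) {g h : T} (hg : g ∈ P4 H) (hh : h ∈ H) : cm g h ∈ H := by
  obtain ⟨hg0, hg1⟩ := hg
  rw [mem_Γ5] at hg0
  obtain ⟨⟨⟨⟨h1, h2⟩, h3, h4, h5⟩, h6, h7, h8, h9⟩, h10, h11, h12, h13, h14⟩ := hg0
  rw [cm_lev5 g h h1 h2 h3 h4 h5 h6 h7 h8 h9 h10 h11 h12 h13 h14]
  exact hg1 h hh

theorem cm_P3 (H : Subgroup T) {g h : T} (hg : g ∈ P3 H) (hh : h ∈ H) : cm g h ∈ P4 H := by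
  obtain ⟨hg0, hg1⟩ := hg
  rw [mem_Γ4] at hg0
  obtain ⟨⟨⟨h1, h2⟩, h3, h4, h5⟩, h6, h7, h8, h9⟩ := hg0
  obtain ⟨ds, dt, de, dp1, dr1, dv1, dv2, dp2, dr2, dq1, dq2, dq3, dp3, dr3, dw1, dw2, dz⟩ :=
    cm_lev4 g h h1 h2 h3 h4 h5 h6 h7 h8 h9
  refine ⟨⟨⟨⟨⟨ds, dt⟩, de, dp1, dr1⟩, dv1, dv2, dp2, dr2⟩, dq1, dq2, dq3, dp3, dr3⟩, ?_⟩
  intro i hi
  have : φ4 i (cm g h) = φ3 (h, i) g := by
    simp only [φ4, φ3, dw1, dw2]
  rw [this]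
  exact hg1 (h, i) ⟨hh, hi⟩

theorem cm_P2 (H : Subgroup T) {g h : T} (hg : g ∈ P2 H) (hh : h ∈ H) : cm g h ∈ P3 H := by
  obtain ⟨hg0, hg1⟩ := hg
  rw [mem_Γ3] at hg0
  obtain ⟨⟨h1, h2⟩, h3, h4, h5⟩ := hg0
  obtain ⟨cs, ct, ce, cp1, cr1, cv1, cv2, cp2, cr2, cq1, cq2, cq3, cp3, cr3, cw1, cw2⟩ :=
    cm_lev3 g h h1 h2 h3 h4 h5
  refine ⟨⟨⟨⟨cs, ct⟩, ce, cp1, cr1⟩, cv1, cv2, cp2, cr2⟩, ?_⟩
  rintro ⟨i, j⟩ ⟨hi, hj⟩
  have : φ3 (i, j) (cm g h) = φ2 (h, i, j) g := by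
    simp only [φ3, φ2, cq1, cq2, cq3]
    ring
  rw [this]
  exact hg1 (h, i, j) ⟨hh, hi, hj⟩

theorem cm_P1 (H : Subgroup T) {g h : T} (hg : g ∈ P1 H) (hh : h ∈ H) : cm g h ∈ P2 H := by
  obtain ⟨hg0, hg1⟩ := hg
  rw [mem_Γ2] at hg0
  obtain ⟨h1, h2⟩ := hg0
  obtain ⟨bs, bt, be, bp1, br1, bv1, bv2, bp2, br2, bq1, bq2, bq3⟩ := cm_lev2 g h h1 h2
  refine ⟨⟨⟨bs, bt⟩, be, bp1, br1⟩, ?_⟩
  rintro ⟨i, j, k⟩ ⟨hi, hj, hk⟩
  have : φ2 (i, j, k) (cm g h) = φ1 (h, i, j, k) g := by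
    simp only [φ2, φ1, bv1, bv2, om]
    push_cast
    ring
  rw [this]
  exact hg1 (h, i, j, k) ⟨hh, hi, hj, hk⟩

/-- The image of a subgroup in `ℤ²`. -/
def img (H : Subgroup T) : AddSubgroup (ℤ × ℤ) where
  carrier := {x | ∃ h ∈ H, h.s = x.1 ∧ h.t = x.2}
  add_mem' := by
    rintro x y ⟨a, ha, h1, h2⟩ ⟨b, hb, h3, h4⟩
    exact ⟨a * b, H.mul_mem ha hb, by rw [mul_s, h1, h3]; rfl, by rw [mul_t, h2, h4]; rfl⟩
  zero_mem' := ⟨1, H.one_mem, rfl, rfl⟩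
  neg_mem' := by
    rintro x ⟨a, ha, h1, h2⟩
    exact ⟨a⁻¹, H.inv_mem ha, by rw [inv_s, h1]; rfl, by rw [inv_t, h2]; rfl⟩

/-- The integers `n` with `zel n ∈ H`. -/
def cen (H : Subgroup T) : AddSubgroup ℤ where
  carrier := {n | zel (n : ℚ) ∈ H}
  add_mem' := by
    intro a b ha hb
    have := H.mul_mem ha hb
    rw [← zel_add] at this
    simpa using this
  zero_mem' := by
    have := H.one_mem
    rw [← zel_zero] at this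
    simpa using this
  neg_mem' := by
    intro a ha
    have := H.inv_mem ha
    rw [← zel_neg] at this
    simpa using this

theorem cm_mem {H : Subgroup T} {a b : T} (ha : a ∈ H) (hb : b ∈ H) : cm a b ∈ H :=
  H.mul_mem (H.mul_mem (H.mul_mem ha hb) (H.inv_mem ha)) (H.inv_mem hb)

theorem cen_key (H : Subgroup T) (g : T) {h a b c d : T} (hh : h ∈ H) (ha : a ∈ H) (hb : b ∈ H)
    (hc : c ∈ H) (hd : d ∈ H) : 6 * om g h * om a b * om c d ∈ cen H := by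
  have hY : ∀ a ∈ img H, ∀ b ∈ img H, ∀ c ∈ img H,
      (a.1 * b.2 - a.2 * b.1) * (c.2 ^ 3 - c.1 ^ 3) ∈ cen H := by
    rintro x ⟨a, ha, h1, h2⟩ y ⟨b, hb, h3, h4⟩ z ⟨c, hc, h5, h6⟩
    have h7 : zel (om a b * (c.t ^ 3 - c.s ^ 3)) ∈ H := by
      rw [← cubic a b c]
      exact cm_mem (cm_mem (cm_mem (cm_mem ha hb) hc) hc) hc
    change zel _ ∈ H
    convert h7 using 2
    rw [← h1, ← h2, ← h3, ← h4, ← h5, ← h6, om]
    push_cast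
    ring
  exact arith (img H) (cen H) hY (g.s, g.t) (h := (h.s, h.t)) (a := (a.s, a.t)) (b := (b.s, b.t))
    (c := (c.s, c.t)) (d := (d.s, d.t)) ⟨h, hh, rfl, rfl⟩ ⟨a, ha, rfl, rfl⟩ ⟨b, hb, rfl, rfl⟩
    ⟨c, hc, rfl, rfl⟩ ⟨d, hd, rfl, rfl⟩

theorem cm_top (H : Subgroup T) (g : T) {h : T} (hh : h ∈ H) : cm g h ∈ P1 H := by
  obtain ⟨as, at', ae, ap1, ar1⟩ := cm_lev1 g h
  refine ⟨⟨as, at'⟩, ?_⟩
  rintro ⟨i, j, k, l⟩ ⟨hi, hj, hk, hl⟩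
  have h1 := cen_key H g hh hi hl hj hk
  have h2 := cen_key H g hh hj hl hi hk
  have h3 : zel _ ∈ H := (cen H).neg_mem ((cen H).add_mem h1 h2)
  convert h3 using 2
  simp only [φ1, ae]
  push_cast
  ring

theorem chain_step (H P P' : Subgroup T) [hP' : P'.Normal] (hle : P' ≤ P)
    (hc : ∀ p ∈ P, ∀ h ∈ H, cm p h ∈ H ⊔ P') :
    H ⊔ P' ≤ H ⊔ P ∧ ((H ⊔ P').subgroupOf (H ⊔ P)).Normal := by
  have h1 : H ⊔ P' ≤ H ⊔ P := sup_le_sup_left hle H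
  refine ⟨h1, ?_⟩
  rw [Subgroup.normal_subgroupOf_iff_le_normalizer h1]
  refine sup_le (le_sup_left.trans Subgroup.le_normalizer) ?_
  rw [Subgroup.le_normalizer_iff]
  intro p hp x hx
  rw [Subgroup.mem_sup_of_normal_right] at hx
  obtain ⟨h, hh, n, hn, rfl⟩ := hx
  have e : p * (h * n) * p⁻¹ = cm p h * (h * (p * n * p⁻¹)) := by
    simp only [cm]; group
  rw [e]
  exact (H ⊔ P').mul_mem (hc p hp h hh)
    (Subgroup.mul_mem_sup hh (hP'.conj_mem n hn p))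

/-- Every subgroup of `T` is subnormal of defect at most five. -/
theorem all_subnormal (H : Subgroup T) : ∃ f : ℕ → Subgroup T, f 0 = H ∧ f 5 = ⊤ ∧
    ∀ i, i < 5 → f i ≤ f (i + 1) ∧ ((f i).subgroupOf (f (i + 1))).Normal := by
  let f : ℕ → Subgroup T := fun i => match i with
    | 0 => H ⊔ ⊥
    | 1 => H ⊔ P4 H
    | 2 => H ⊔ P3 H
    | 3 => H ⊔ P2 H
    | 4 => H ⊔ P1 H
    | _ => H ⊔ ⊤
  refine ⟨f, by simp [f], by simp [f], ?_⟩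
  intro i hi
  interval_cases i
  · exact chain_step H (P4 H) ⊥ bot_le fun p hp h hh => Subgroup.mem_sup_left (cm_P4 H hp hh)
  · exact chain_step H (P3 H) (P4 H) (P4_le_P3 H)
      fun p hp h hh => Subgroup.mem_sup_right (cm_P3 H hp hh)
  · exact chain_step H (P2 H) (P3 H) (P3_le_P2 H)
      fun p hp h hh => Subgroup.mem_sup_right (cm_P2 H hp hh)
  · exact chain_step H (P1 H) (P2 H) (P2_le_P1 H)
      fun p hp h hh => Subgroup.mem_sup_right (cm_P1 H hp hh)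
  · exact chain_step H ⊤ (P1 H) le_top
      fun p _ h hh => Subgroup.mem_sup_right (cm_top H p hh)

/-- First generator. -/
def X : T := ⟨1,0,0,0,0,0,0,0,0,0,0,0,0,0,0,0,0⟩

/-- Second generator. -/
def Y : T := ⟨0,1,0,0,0,0,0,0,0,0,0,0,0,0,0,0,0⟩

theorem sixfold : (cm (cm (cm (cm (cm X Y) X) Y) X) Y).z = 6 := by
  obtain ⟨as, at', ae, ap1, ar1⟩ := cm_lev1 X Y
  generalize cm X Y = k1 at *
  obtain ⟨bs, bt, be, bp1, br1, bv1, bv2, bp2, br2, bq1, bq2, bq3⟩ := cm_lev2 k1 X as at'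
  generalize cm k1 X = k2 at *
  obtain ⟨cs, ct, ce, cp1, cr1, cv1, cv2, cp2, cr2, cq1, cq2, cq3, cp3, cr3, cw1, cw2⟩ :=
    cm_lev3 k2 Y bs bt be bp1 br1
  generalize cm k2 Y = k3 at *
  obtain ⟨ds, dt, de, dp1, dr1, dv1, dv2, dp2, dr2, dq1, dq2, dq3, dp3, dr3, dw1, dw2, dz⟩ :=
    cm_lev4 k3 X cs ct ce cp1 cr1 cv1 cv2 cp2 cr2
  generalize cm k3 X = k4 at *
  rw [cm_lev5 k4 Y ds dt de dp1 dr1 dv1 dv2 dp2 dr2 dq1 dq2 dq3 dp3 dr3]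
  simp only [zel, dw1, dw2, cq1, cq2, cq3, bv1, bv2, ae, om, X, Y]
  norm_num

theorem not_class_five : Subgroup.upperCentralSeries T 5 ≠ ⊤ := by
  intro h
  have h5 : X ∈ Subgroup.upperCentralSeries T 5 := by rw [h]; trivial
  have h4 := (Subgroup.mem_upperCentralSeries_succ_iff.1 h5) Y
  have h3 := (Subgroup.mem_upperCentralSeries_succ_iff.1 h4) X
  have h2 := (Subgroup.mem_upperCentralSeries_succ_iff.1 h3) Y
  have h1 := (Subgroup.mem_upperCentralSeries_succ_iff.1 h2) X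
  have h0 := (Subgroup.mem_upperCentralSeries_succ_iff.1 h1) Y
  rw [Subgroup.upperCentralSeries_zero, Subgroup.mem_bot] at h0
  have h6 : cm (cm (cm (cm (cm X Y) X) Y) X) Y = 1 := h0
  have := sixfold
  rw [h6, one_z] at this
  norm_num at this

theorem pow_additive (Γ : Subgroup T) (c : T → ℚ)
    (hadd : ∀ g ∈ Γ, ∀ g' ∈ Γ, c (g * g') = c g + c g') {g : T} (hg : g ∈ Γ) {k : ℕ}
    (hk : 0 < k) (h : g ^ k = 1) : c g = 0 := by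
  have h1 : c 1 = 0 := by
    have := hadd 1 Γ.one_mem 1 Γ.one_mem
    rw [mul_one] at this
    linarith
  have h2 : ∀ n : ℕ, c (g ^ n) = n * c g := by
    intro n
    induction n with
    | zero => simp [h1]
    | succ n ih =>
      rw [pow_succ, hadd _ (Γ.pow_mem hg n) _ hg, ih]
      push_cast
      ring
  have h3 := h2 k
  rw [h, h1] at h3
  have hk' : (k : ℚ) ≠ 0 := by exact_mod_cast hk.ne'
  rcases mul_eq_zero.1 h3.symm with h4 | h4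
  · exact absurd h4 hk'
  · exact h4

theorem torsion_free (g : T) (k : ℕ) (hk : 0 < k) (h : g ^ k = 1) : g = 1 := by
  have gs' : (g.s : ℚ) = 0 := pow_additive ⊤ (fun g => (g.s : ℚ))
    (fun a _ b _ => by simp only [mul_s]; push_cast; ring) (Subgroup.mem_top g) hk h
  have gt' : (g.t : ℚ) = 0 := pow_additive ⊤ (fun g => (g.t : ℚ))
    (fun a _ b _ => by simp only [mul_t]; push_cast; ring) (Subgroup.mem_top g) hk h
  have gs : g.s = 0 := by exact_mod_cast gs'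
  have gt : g.t = 0 := by exact_mod_cast gt'
  have g2 : g ∈ Γ2 := ⟨gs, gt⟩
  have ge : g.e = 0 := pow_additive Γ2 T.e (by
    rintro a ⟨h1, h2⟩ b ⟨k1, k2⟩
    simp only [mul_e, h1, h2, k1, k2]; push_cast; ring) g2 hk h
  have gp1 : g.p1 = 0 := pow_additive Γ2 T.p1 (by
    rintro a ⟨h1, h2⟩ b ⟨k1, k2⟩
    simp only [mul_p1, h1, h2, k1, k2]; push_cast; ring) g2 hk h
  have gr1 : g.r1 = 0 := pow_additive Γ2 T.r1 (by
    rintro a ⟨h1, h2⟩ b ⟨k1, k2⟩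
    simp only [mul_r1, h1, h2, k1, k2]; push_cast; ring) g2 hk h
  have g3 : g ∈ Γ3 := ⟨⟨gs, gt⟩, ge, gp1, gr1⟩
  have gv1 : g.v1 = 0 := pow_additive Γ3 T.v1 (by
    rintro a ⟨⟨h1, h2⟩, h3, h4, h5⟩ b ⟨⟨k1, k2⟩, k3, k4, k5⟩
    simp only [mul_v1, h1, h2, k1, k2, h3, k3]; push_cast; ring) g3 hk h
  have gv2 : g.v2 = 0 := pow_additive Γ3 T.v2 (by
    rintro a ⟨⟨h1, h2⟩, h3, h4, h5⟩ b ⟨⟨k1, k2⟩, k3, k4, k5⟩
    simp only [mul_v2, h1, h2, k1, k2, h3, k3]; push_cast; ring) g3 hk h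
  have gp2 : g.p2 = 0 := pow_additive Γ3 T.p2 (by
    rintro a ⟨⟨h1, h2⟩, h3, h4, h5⟩ b ⟨⟨k1, k2⟩, k3, k4, k5⟩
    simp only [mul_p2, h1, h2, k1, k2, h4, k4]; push_cast; ring) g3 hk h
  have gr2 : g.r2 = 0 := pow_additive Γ3 T.r2 (by
    rintro a ⟨⟨h1, h2⟩, h3, h4, h5⟩ b ⟨⟨k1, k2⟩, k3, k4, k5⟩
    simp only [mul_r2, h1, h2, k1, k2, h5, k5]; push_cast; ring) g3 hk h
  have g4 : g ∈ Γ4 := ⟨g3, gv1, gv2, gp2, gr2⟩
  have gq1 : g.q1 = 0 := pow_additive Γ4 T.q1 (by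
    rintro a ⟨⟨⟨h1, h2⟩, h3, h4, h5⟩, h6, h7, h8, h9⟩ b ⟨⟨⟨k1, k2⟩, k3, k4, k5⟩, k6, k7, k8, k9⟩
    simp only [mul_q1, h1, h2, k1, k2, h3, k3, h6, h7, k6, k7]; push_cast; ring) g4 hk h
  have gq2 : g.q2 = 0 := pow_additive Γ4 T.q2 (by
    rintro a ⟨⟨⟨h1, h2⟩, h3, h4, h5⟩, h6, h7, h8, h9⟩ b ⟨⟨⟨k1, k2⟩, k3, k4, k5⟩, k6, k7, k8, k9⟩
    simp only [mul_q2, h1, h2, k1, k2, h3, k3, h6, h7, k6, k7]; push_cast; ring) g4 hk h
  have gq3 : g.q3 = 0 := pow_additive Γ4 T.q3 (by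
    rintro a ⟨⟨⟨h1, h2⟩, h3, h4, h5⟩, h6, h7, h8, h9⟩ b ⟨⟨⟨k1, k2⟩, k3, k4, k5⟩, k6, k7, k8, k9⟩
    simp only [mul_q3, h1, h2, k1, k2, h3, k3, h6, h7, k6, k7]; push_cast; ring) g4 hk h
  have gp3 : g.p3 = 0 := pow_additive Γ4 T.p3 (by
    rintro a ⟨⟨⟨h1, h2⟩, h3, h4, h5⟩, h6, h7, h8, h9⟩ b ⟨⟨⟨k1, k2⟩, k3, k4, k5⟩, k6, k7, k8, k9⟩
    simp only [mul_p3, h1, h2, k1, k2, h4, k4, h8, k8]; push_cast; ring) g4 hk h
  have gr3 : g.r3 = 0 := pow_additive Γ4 T.r3 (by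
    rintro a ⟨⟨⟨h1, h2⟩, h3, h4, h5⟩, h6, h7, h8, h9⟩ b ⟨⟨⟨k1, k2⟩, k3, k4, k5⟩, k6, k7, k8, k9⟩
    simp only [mul_r3, h1, h2, k1, k2, h5, k5, h9, k9]; push_cast; ring) g4 hk h
  have g5 : g ∈ Γ5 := ⟨g4, gq1, gq2, gq3, gp3, gr3⟩
  have gw1 : g.w1 = 0 := pow_additive Γ5 T.w1 (by
    rintro a ⟨⟨⟨⟨h1, h2⟩, h3, h4, h5⟩, h6, h7, h8, h9⟩, h10, h11, h12, h13, h14⟩
      b ⟨⟨⟨⟨k1, k2⟩, k3, k4, k5⟩, k6, k7, k8, k9⟩, k10, k11, k12, k13, k14⟩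
    simp only [mul_w1, h1, h2, k1, k2, h3, k3, h6, h7, k6, k7, h10, h11]; push_cast; ring) g5 hk h
  have gw2 : g.w2 = 0 := pow_additive Γ5 T.w2 (by
    rintro a ⟨⟨⟨⟨h1, h2⟩, h3, h4, h5⟩, h6, h7, h8, h9⟩, h10, h11, h12, h13, h14⟩
      b ⟨⟨⟨⟨k1, k2⟩, k3, k4, k5⟩, k6, k7, k8, k9⟩, k10, k11, k12, k13, k14⟩
    simp only [mul_w2, h1, h2, k1, k2, h3, k3, h6, h7, k6, k7, h10, h12]; push_cast; ring) g5 hk h
  have gz : g.z = 0 := pow_additive Γ5 T.z (by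
    rintro a ⟨⟨⟨⟨h1, h2⟩, h3, h4, h5⟩, h6, h7, h8, h9⟩, h10, h11, h12, h13, h14⟩
      b ⟨⟨⟨⟨k1, k2⟩, k3, k4, k5⟩, k6, k7, k8, k9⟩, k10, k11, k12, k13, k14⟩
    simp only [mul_z, h1, h2, k1, k2, h3, k3, h4, h5, h6, h7, k6, k7, h8, h9, h10, h11, h12, h13,
      h14]
    push_cast; ring) g5 hk h
  ext
  · exact gs
  · exact gt
  · exact ge
  · exact gv1
  · exact gv2
  · exact gq1
  · exact gq2
  · exact gq3
  · exact gw1
  · exact gw2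
  · exact gp1
  · exact gp2
  · exact gp3
  · exact gr1
  · exact gr2
  · exact gr3
  · exact gz

end T
end Pool.Agent.Helper252.Subn
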